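import Mathlib

-- part MP_1ca51f_al.Koszul
section

/-!
Koszul syzygies of a finite family in a commutative ring: localisation at an associated prime,
elimination of generators, and the depth computations for two and three generators.
-/

namespace Pool.Agent.MP_1ca51f_al

open Matrix

variable {R : Type*} [CommRing R]

/-- The Koszul syzygies of the family `a`. -/
def kos {ι : Type*} [Fintype ι] (a : ι → R) : Submodule R (ι → R) where
  carrier := {θ | ∃ β : Matrix ι ι R, βᵀ = -β ∧ θ = β *ᵥ a}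
  add_mem' := by
    rintro _ _ ⟨β, hβ, rfl⟩ ⟨γ, hγ, rfl⟩
    exact ⟨β + γ, by rw [transpose_add, hβ, hγ, neg_add], by rw [add_mulVec]⟩
  zero_mem' := ⟨0, by simp, by simp⟩
  smul_mem' := by
    rintro c _ ⟨β, hβ, rfl⟩
    exact ⟨c • β, by rw [transpose_smul, hβ, smul_neg], by rw [smul_mulVec]⟩

theorem mem_kos {ι : Type*} [Fintype ι] {a θ : ι → R} :
    θ ∈ kos a ↔ ∃ β : Matrix ι ι R, βᵀ = -β ∧ θ = β *ᵥ a := Iff.rfl

theorem smul_mem_kos {ι : Type*} [Fintype ι] {a ξ : ι → R} (hξ : ξ ⬝ᵥ a = 0) {r : R}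
    (hr : r ∈ Ideal.span (Set.range a)) : r • ξ ∈ kos a := by
  obtain ⟨c, rfl⟩ := (Submodule.mem_span_range_iff_exists_fun R).1 hr
  refine ⟨vecMulVec ξ c - vecMulVec c ξ, by simp [transpose_sub, transpose_vecMulVec], ?_⟩
  rw [sub_mulVec, vecMulVec_mulVec, vecMulVec_mulVec, hξ]
  ext i
  simp [dotProduct, mul_comm]

section Elim

variable {ι κ : Type*} [Fintype ι] [Fintype κ] {a : ι → R} {V : Matrix κ ι R}
  {φ : Matrix ι κ R} {w : R}

theorem elim_syz (hφ : w • a = φ *ᵥ (V *ᵥ a)) {θ : ι → R} (hθ : θ ⬝ᵥ a = 0) :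
    (φᵀ *ᵥ θ) ⬝ᵥ (V *ᵥ a) = 0 := by
  rw [mulVec_transpose, ← dotProduct_mulVec, ← hφ, dotProduct_smul, hθ, smul_zero]

theorem elim_down (hφ : w • a = φ *ᵥ (V *ᵥ a)) {θ : ι → R} {y : R} (h : y • θ ∈ kos a) :
    y • (w • (φᵀ *ᵥ θ)) ∈ kos (V *ᵥ a) := by
  obtain ⟨β, hβ, h⟩ := h
  refine ⟨φᵀ * β * φ, ?_, ?_⟩
  · rw [transpose_mul, transpose_mul, transpose_transpose, hβ, Matrix.neg_mul, Matrix.mul_neg,
      Matrix.mul_assoc]
  · rw [← mulVec_mulVec, ← mulVec_mulVec, ← hφ, mulVec_smul, ← h, mulVec_smul, mulVec_smul,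
      smul_comm]

theorem elim_up (hφ : w • a = φ *ᵥ (V *ᵥ a)) {θ : ι → R}
    (hJ : ∀ j, θ j ∈ Ideal.span (Set.range a)) {t : R}
    (h : t • (φᵀ *ᵥ θ) ∈ kos (V *ᵥ a)) : (t * w) • θ ∈ kos a := by
  classical
  obtain ⟨γ, hγ, h⟩ := h
  have h1 : t • (Vᵀ *ᵥ (φᵀ *ᵥ θ)) ∈ kos a := by
    refine ⟨Vᵀ * γ * V, ?_, ?_⟩
    · rw [transpose_mul, transpose_mul, transpose_transpose, hγ, Matrix.neg_mul, Matrix.mul_neg,
        Matrix.mul_assoc]
    · rw [← mulVec_mulVec, ← mulVec_mulVec, ← h, mulVec_smul]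
  have h2 : w • θ - Vᵀ *ᵥ (φᵀ *ᵥ θ) ∈ kos a := by
    have : w • θ - Vᵀ *ᵥ (φᵀ *ᵥ θ) =
        ∑ j, θ j • (w • (Pi.single j 1 : ι → R) - Vᵀ *ᵥ (φ j)) := by
      ext i
      simp only [Pi.sub_apply, Pi.smul_apply, smul_eq_mul, Finset.sum_apply, mulVec, dotProduct,
        transpose_apply, mul_sub, Finset.sum_sub_distrib, Pi.single_apply, mul_ite, mul_one,
        mul_zero, Finset.sum_ite_eq, Finset.mem_univ, if_true, Finset.mul_sum]
      rw [Finset.sum_comm, mul_comm w]
      congr 1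
      refine Finset.sum_congr rfl fun _ _ => Finset.sum_congr rfl fun _ _ => by ring
    rw [this]
    refine Submodule.sum_mem _ fun j _ => smul_mem_kos ?_ (hJ j)
    have hj := congrFun hφ j
    rw [sub_dotProduct, smul_dotProduct, single_dotProduct, one_mul, mulVec_transpose,
      ← dotProduct_mulVec]
    exact sub_eq_zero.2 hj
  have h3 := (kos a).add_mem h1 ((kos a).smul_mem t h2)
  rwa [smul_sub, add_sub_cancel, smul_smul] at h3

end Elim

/-- Reduction to an associated prime. -/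
theorem kos_of_local [IsNoetherianRing R] {ι : Type*} [Fintype ι] (a : ι → R)
    (H : ∀ p : Ideal R, p.IsPrime → ∀ θ : ι → R, θ ⬝ᵥ a = 0 →
      (∀ j, θ j ∈ Ideal.span (Set.range a)) → (∀ r ∈ p, r • θ ∈ kos a) →
      (∀ r ∈ Ideal.span (Set.range a), r ∈ p) → ∃ s, s ∉ p ∧ s • θ ∈ kos a)
    {θ₀ : ι → R} (h₀ : θ₀ ⬝ᵥ a = 0) (hJ₀ : ∀ j, θ₀ j ∈ Ideal.span (Set.range a)) :
    θ₀ ∈ kos a := by
  by_contra hn
  let col : (ι → R) → Ideal R := fun θ => (kos a).comap (LinearMap.toSpanSingleton R _ θ)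
  have hcol : ∀ θ r, r ∈ col θ ↔ r • θ ∈ kos a := fun θ r => Iff.rfl
  let S : Set (Ideal R) := {p | ∃ θ : ι → R, θ ⬝ᵥ a = 0 ∧
    (∀ j, θ j ∈ Ideal.span (Set.range a)) ∧ θ ∉ kos a ∧ p = col θ}
  obtain ⟨p, ⟨θ, hθ, hJ, hθn, rfl⟩, hmax⟩ :=
    (set_has_maximal_iff_noetherian (R := R) (M := R)).2 inferInstance S ⟨_, θ₀, h₀, hJ₀, hn, rfl⟩
  have hp : (col θ).IsPrime := by
    refine ⟨fun h => hθn ?_, fun {x y} hxy => ?_⟩
    · have : (1 : R) ∈ col θ := h ▸ Submodule.mem_top
      simpa [hcol] using this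
    · by_contra hc
      push Not at hc
      refine hmax (col (y • θ)) ⟨y • θ, by rw [smul_dotProduct, hθ, smul_zero],
        fun j => Ideal.mul_mem_left _ _ (hJ j), hc.2, rfl⟩ ?_
      refine lt_of_le_of_ne (fun r hr => ?_) fun h => hc.1 ?_
      · rw [hcol, smul_comm]
        exact (kos a).smul_mem _ hr
      · rw [h, hcol, smul_smul]
        exact hxy
  obtain ⟨s, hs, hs'⟩ := H _ hp θ hθ hJ (fun r hr => hr) fun r hr => smul_mem_kos hθ hr
  exact hs hs'

/-- Two generators `y₁ s`, `y₀ t`. -/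
theorem kos_two [IsDomain R] {y₀ y₁ s t : R} (h0 : y₀ ≠ 0)
    (hd : ∀ c, y₀ ∣ c * (y₁ * s) → y₀ ∣ c) {θ : Fin 2 → R}
    (hθ : θ ⬝ᵥ ![y₁ * s, y₀ * t] = 0) : t • θ ∈ kos ![y₁ * s, y₀ * t] := by
  simp only [dotProduct, Fin.sum_univ_two, cons_val_zero, cons_val_one] at hθ
  obtain ⟨e, he⟩ := hd (θ 0) ⟨-(θ 1 * t), by linear_combination hθ⟩
  have h1 : e * (y₁ * s) + θ 1 * t = 0 := by
    apply mul_left_cancel₀ h0
    rw [he] at hθ
    linear_combination hθ
  refine ⟨!![0, e; -e, 0], ?_, ?_⟩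
  · ext i j
    fin_cases i <;> fin_cases j <;> simp
  · ext i
    fin_cases i
    · simp [mulVec, dotProduct, he]
      ring
    · simp [mulVec, dotProduct]
      linear_combination h1

/-- The first three conditions for a regular sequence. -/
structure Reg3 (y₀ y₁ y₂ : R) : Prop where
  r0 : y₀ ≠ 0
  r1 : ∀ c d, y₁ * c = y₀ * d → ∃ e, c = y₀ * e
  r2 : ∀ c d₀ d₁, y₂ * c = y₀ * d₀ + y₁ * d₁ → ∃ e₀ e₁, c = y₀ * e₀ + y₁ * e₁

/-- A regular sequence of length four. -/
structure Reg4 (y₀ y₁ y₂ y₃ : R) : Prop extends Reg3 y₀ y₁ y₂ where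
  r3 : ∀ c d₀ d₁ d₂, y₃ * c = y₀ * d₀ + y₁ * d₁ + y₂ * d₂ →
    ∃ e₀ e₁ e₂, c = y₀ * e₀ + y₁ * e₁ + y₂ * e₂

/-- Last step of the depth chase. -/
theorem kos_of_split [IsDomain R] {ι : Type*} [Fintype ι] {a θ : ι → R} {y₀ y₁ : R}
    (r0 : y₀ ≠ 0) (r1 : ∀ c d, y₁ * c = y₀ * d → ∃ e, c = y₀ * e)
    {β₀ β₁ ζ₀ ζ₁ : Matrix ι ι R} (hβ₀ : β₀ᵀ = -β₀) (hζ₁ : ζ₁ᵀ = -ζ₁) (h₀ : y₀ • θ = β₀ *ᵥ a)
    (hz : ζ₁ *ᵥ a = 0) (h : y₀ • β₁ - y₁ • β₀ = y₀ • ζ₀ + y₁ • ζ₁) : θ ∈ kos a := by
  have : ∀ i j, ∃ e, (β₀ + ζ₁) i j = y₀ * e := fun i j => by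
    refine r1 _ ((β₁ - ζ₀) i j) ?_
    have := congrFun (congrFun h i) j
    simp only [Matrix.sub_apply, Matrix.add_apply, Matrix.smul_apply, smul_eq_mul] at this ⊢
    linear_combination -this
  choose β hβ using this
  have hβ' : β₀ + ζ₁ = y₀ • Matrix.of β := by
    ext i j
    simpa using hβ i j
  refine ⟨Matrix.of β, ?_, ?_⟩
  · apply smul_right_injective _ r0
    simp only
    rw [← transpose_smul, smul_neg, ← hβ', transpose_add, hβ₀, hζ₁, neg_add]
  · apply smul_right_injective _ r0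
    simp only
    rw [← smul_mulVec, ← hβ', add_mulVec, hz, add_zero, h₀]

theorem alt_diag [IsDomain R] [CharZero R] {ι : Type*} {z : Matrix ι ι R} (hz : zᵀ = -z)
    (i : ι) : z i i = 0 := by
  have := congrFun (congrFun hz i) i
  simp only [transpose_apply, Matrix.neg_apply] at this
  have h2 : (2 : R) * z i i = 0 := by linear_combination this
  exact (mul_eq_zero.1 h2).resolve_left two_ne_zero

theorem alt_swap {ι : Type*} {z : Matrix ι ι R} (hz : zᵀ = -z) (i j : ι) : z j i = -z i j := by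
  simpa using congrFun (congrFun hz i) j

/-- The alternating matrix of the cross product with `n`. -/
def crossM (n : Fin 3 → R) : Matrix (Fin 3) (Fin 3) R :=
  !![0, n 2, -n 1; -n 2, 0, n 0; n 1, -n 0, 0]

theorem crossM_alt (n : Fin 3 → R) : (crossM n)ᵀ = -crossM n := by
  ext i j
  fin_cases i <;> fin_cases j <;> simp [crossM]

theorem crossM_self (c : R) (n : Fin 3 → R) : crossM n *ᵥ (c • n) = 0 := by
  ext i
  fin_cases i <;> simp [crossM, mulVec, dotProduct, Fin.sum_univ_three] <;> ring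

/-- The second Koszul cycles of three elements of a factorial domain form a free module. -/
theorem exists_prim [IsDomain R] [UniqueFactorizationMonoid R] [CharZero R] {b : Fin 3 → R}
    (hb : b ≠ 0) : ∃ (c : R) (n : Fin 3 → R), b = c • n ∧ crossM n ≠ 0 ∧
      ∀ z : Matrix (Fin 3) (Fin 3) R, zᵀ = -z → z *ᵥ b = 0 → ∃ h : R, z = h • crossM n := by
  classical
  letI := UniqueFactorizationMonoid.normalizationMonoid (α := R)
  letI := UniqueFactorizationMonoid.toNormalizedGCDMonoid R
  obtain ⟨n, hn, hg⟩ := Finset.extract_gcd (s := Finset.univ) b Finset.univ_nonempty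
  set c := Finset.univ.gcd b
  have hbc : b = c • n := funext fun i => hn i (Finset.mem_univ i)
  have hc : c ≠ 0 := fun h => hb (by rw [hbc, h, zero_smul])
  have hn0 : n ≠ 0 := fun h => hb (by rw [hbc, h, smul_zero])
  refine ⟨c, n, hbc, fun h => hn0 ?_, fun z hz hzb => ?_⟩
  · have h0 := congrFun (congrFun h 1) 2
    have h1 := congrFun (congrFun h 2) 0
    have h2 := congrFun (congrFun h 0) 1
    simp only [crossM, of_apply, cons_val', cons_val, Matrix.zero_apply, cons_val_zero,
      cons_val_one, cons_val_fin_one] at h0 h1 h2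
    ext i
    fin_cases i
    · exact h0
    · exact h1
    · exact h2
  · have hzn : z *ᵥ n = 0 := by
      apply smul_right_injective _ hc
      simp only
      rw [← mulVec_smul, ← hbc, hzb, smul_zero]
    let u : Fin 3 → R := ![z 1 2, z 2 0, z 0 1]
    have hzu : z = crossM u := by
      ext i j
      fin_cases i <;> fin_cases j <;>
        simp [crossM, u, alt_diag hz, alt_swap hz 0 1, alt_swap hz 1 2, alt_swap hz 0 2]
    have e0 := congrFun hzn 0
    have e1 := congrFun hzn 1
    have e2 := congrFun hzn 2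
    rw [hzu] at e0 e1 e2
    simp [crossM, mulVec, dotProduct, Fin.sum_univ_three] at e0 e1 e2
    have hpar : ∀ i j, u i * n j = u j * n i := by
      intro i j
      fin_cases i <;> fin_cases j <;> simp only [Fin.zero_eta, Fin.mk_one, Fin.reduceFinMk] <;>
        first
          | rfl
          | linear_combination e0
          | linear_combination -e0
          | linear_combination e1
          | linear_combination -e1
          | linear_combination e2
          | linear_combination -e2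
    obtain ⟨i, hi⟩ := Function.ne_iff.1 hn0
    have hdvd : n i ∣ u i := by
      have h1 : n i ∣ Finset.univ.gcd fun j => u i * n j :=
        Finset.dvd_gcd fun j _ => ⟨u j, by rw [hpar i j, mul_comm]⟩
      have h2 := Finset.gcd_mul_left' (s := Finset.univ) (f := n) (u i)
      rw [hg, mul_one] at h2
      exact h1.trans h2.dvd
    obtain ⟨h, hh⟩ := hdvd
    have hu : u = h • n := by
      ext j
      apply mul_right_cancel₀ hi
      rw [← hpar i j, hh, Pi.smul_apply, smul_eq_mul]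
      ring
    refine ⟨h, ?_⟩
    rw [hzu, hu]
    ext i j
    fin_cases i <;> fin_cases j <;> simp [crossM]

/-- Three generators: the first Koszul homology has no element killed by a regular sequence
of length three. -/
theorem kos_three [IsDomain R] [UniqueFactorizationMonoid R] [CharZero R] {b θ : Fin 3 → R}
    {y₀ y₁ y₂ : R} (hy : Reg3 y₀ y₁ y₂) (h₀ : y₀ • θ ∈ kos b) (h₁ : y₁ • θ ∈ kos b)
    (h₂ : y₂ • θ ∈ kos b) : θ ∈ kos b := by
  obtain ⟨β₀, a₀, h₀⟩ := h₀
  obtain ⟨β₁, a₁, h₁⟩ := h₁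
  obtain ⟨β₂, a₂, h₂⟩ := h₂
  by_cases hb : b = 0
  · have : θ = 0 := by
      apply smul_right_injective _ hy.r0
      simp only
      rw [h₀, hb, mulVec_zero, smul_zero]
    rw [this]
    exact zero_mem _
  obtain ⟨c, n, hbc, hn, H⟩ := exists_prim hb
  have key : ∀ {x x' : R} {β β' : Matrix (Fin 3) (Fin 3) R}, βᵀ = -β → β'ᵀ = -β' →
      x • θ = β *ᵥ b → x' • θ = β' *ᵥ b → ∃ h : R, x • β' - x' • β = h • crossM n := by
    intro x x' β β' a a' h h'
    refine H _ ?_ ?_
    · rw [transpose_sub, transpose_smul, transpose_smul, a, a', smul_neg, smul_neg]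
      abel
    · rw [sub_mulVec, smul_mulVec, smul_mulVec, ← h, ← h', smul_comm, sub_self]
  obtain ⟨k₀₁, e₀₁⟩ := key a₀ a₁ h₀ h₁
  obtain ⟨k₀₂, e₀₂⟩ := key a₀ a₂ h₀ h₂
  obtain ⟨k₁₂, e₁₂⟩ := key a₁ a₂ h₁ h₂
  have hc : y₂ * k₀₁ = y₀ * (-k₁₂) + y₁ * k₀₂ := by
    apply smul_left_injective R hn
    simp only
    rw [add_smul, mul_smul, mul_smul, mul_smul, neg_smul, ← e₀₁, ← e₀₂, ← e₁₂]
    module
  obtain ⟨e₀, e₁, he⟩ := hy.r2 _ _ _ hc
  refine kos_of_split hy.r0 hy.r1 (β₁ := β₁) (ζ₀ := e₀ • crossM n) (ζ₁ := e₁ • crossM n) a₀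
    (by rw [transpose_smul, crossM_alt, smul_neg]) h₀
    (by rw [smul_mulVec, hbc, crossM_self, smul_zero]) ?_
  rw [e₀₁, he]
  module

end Pool.Agent.MP_1ca51f_al

end

-- part MP_1ca51f_al.Four
section

/-!
The depth computation at the origin: logarithmic one-forms of an arrangement that is normal
crossing in codimension two are generated by the forms `dℓ / ℓ`.
-/

namespace Pool.Agent.MP_1ca51f_al

open Matrix

variable {R : Type*} [CommRing R]

/-- The Hodge star on alternating matrices of size four. -/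
def star4 (z : Matrix (Fin 4) (Fin 4) R) : Matrix (Fin 4) (Fin 4) R :=
  !![0, z 2 3, -z 1 3, z 1 2; -z 2 3, 0, z 0 3, -z 0 2; z 1 3, -z 0 3, 0, z 0 1;
    -z 1 2, z 0 2, -z 0 1, 0]

theorem star4_alt (z : Matrix (Fin 4) (Fin 4) R) : (star4 z)ᵀ = -star4 z := by
  ext i j
  fin_cases i <;> fin_cases j <;> simp [star4]

theorem star4_comb (x y : R) (z w : Matrix (Fin 4) (Fin 4) R) :
    star4 (x • z + y • w) = x • star4 z + y • star4 w := by
  ext i j
  fin_cases i <;> fin_cases j <;> simp [star4] <;> ring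

theorem star4_comb3 (x y u : R) (z w v : Matrix (Fin 4) (Fin 4) R) :
    star4 (x • z - y • w + u • v) = x • star4 z - y • star4 w + u • star4 v := by
  ext i j
  fin_cases i <;> fin_cases j <;> simp [star4] <;> ring

theorem star4_zero : star4 (0 : Matrix (Fin 4) (Fin 4) R) = 0 := by
  ext i j
  fin_cases i <;> fin_cases j <;> simp [star4]

theorem star4_star4 [IsDomain R] [CharZero R] {z : Matrix (Fin 4) (Fin 4) R} (hz : zᵀ = -z) :
    star4 (star4 z) = z := by
  ext i j
  fin_cases i <;> fin_cases j <;>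
    simp [star4, alt_diag hz, alt_swap hz 0 1, alt_swap hz 0 2, alt_swap hz 0 3,
      alt_swap hz 1 2, alt_swap hz 1 3, alt_swap hz 2 3]

theorem star4_wedge [IsDomain R] [CharZero R] {z : Matrix (Fin 4) (Fin 4) R} (hz : zᵀ = -z)
    {a : Fin 4 → R} (ha : z *ᵥ a = 0) (x : Fin 4 → R) (j k : Fin 4) :
    a j * (x ᵥ* star4 z) k - a k * (x ᵥ* star4 z) j = (x ⬝ᵥ a) * star4 z j k := by
  have e0 := congrFun ha 0
  have e1 := congrFun ha 1
  have e2 := congrFun ha 2
  have e3 := congrFun ha 3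
  simp only [mulVec, dotProduct, Fin.sum_univ_four, alt_diag hz, alt_swap hz 0 1, alt_swap hz 0 2,
    alt_swap hz 0 3, alt_swap hz 1 2, alt_swap hz 1 3, alt_swap hz 2 3, Pi.zero_apply]
    at e0 e1 e2 e3
  fin_cases j <;> fin_cases k <;>
    simp [star4, vecMul, dotProduct, Fin.sum_univ_four] <;>
    first
      | linear_combination x 2 * e3 - x 3 * e2
      | linear_combination x 3 * e2 - x 2 * e3
      | linear_combination x 1 * e3 - x 3 * e1
      | linear_combination x 3 * e1 - x 1 * e3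
      | linear_combination x 1 * e2 - x 2 * e1
      | linear_combination x 2 * e1 - x 1 * e2
      | linear_combination x 0 * e3 - x 3 * e0
      | linear_combination x 3 * e0 - x 0 * e3
      | linear_combination x 0 * e2 - x 2 * e0
      | linear_combination x 2 * e0 - x 0 * e2
      | linear_combination x 0 * e1 - x 1 * e0
      | linear_combination x 1 * e0 - x 0 * e1

theorem star4_mulVec [IsDomain R] {f : R} (hf : f ≠ 0) {a α : Fin 4 → R}
    {η : Matrix (Fin 4) (Fin 4) R} (h : ∀ j k, a j * α k - a k * α j = f * η j k) :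
    star4 η *ᵥ a = 0 := by
  ext i
  apply mul_left_cancel₀ hf
  fin_cases i <;> simp only [star4, mulVec, dotProduct, Fin.sum_univ_four] <;> simp [-mul_eq_zero]
  · linear_combination -(a 1 * h 2 3 - a 2 * h 1 3 + a 3 * h 1 2)
  · linear_combination (a 0 * h 2 3 - a 2 * h 0 3 + a 3 * h 0 2)
  · linear_combination -(a 0 * h 1 3 - a 1 * h 0 3 + a 3 * h 0 1)
  · linear_combination (a 0 * h 1 2 - a 1 * h 0 2 + a 2 * h 0 1)

/-- The data of an arrangement used in the computation. -/
structure Arr (R : Type*) [CommRing R] (μ : Type*) [Fintype μ] [DecidableEq μ] where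
  l : μ → R
  lam : μ → Fin 4 → R
  a : Fin 4 → R
  h : μ → Fin 4 → R
  x : Fin 4 → R
  m : R
  m' : R
  hm : m' * m = 1
  ha : ∀ i j, a j = l i * h i j + (∏ n ∈ Finset.univ.erase i, l n) * lam i j
  euler : x ⬝ᵥ a = m * ∏ i, l i
  prime : ∀ i, Prime (l i)
  ndvd : ∀ i j, i ≠ j → ¬ l i ∣ l j
  prime2 : ∀ i j, i ≠ j → (Ideal.span {l i, l j}).IsPrime
  nmem2 : ∀ i j n, i ≠ j → n ≠ i → n ≠ j → l n ∉ Ideal.span {l i, l j}
  dual1 : ∀ i, ∃ v, lam i ⬝ᵥ v = 1
  dual2 : ∀ i j, i ≠ j → ∃ v, lam i ⬝ᵥ v = 1 ∧ lam j ⬝ᵥ v = 0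

namespace Arr

variable {μ : Type*} [Fintype μ] [DecidableEq μ] (A : Arr R μ)

/-- The defining polynomial. -/
def f : R := ∏ i, A.l i

/-- The product of all forms but one. -/
def g (i : μ) : R := ∏ n ∈ Finset.univ.erase i, A.l n

theorem l_mul_g (i : μ) : A.l i * A.g i = A.f :=
  Finset.mul_prod_erase _ _ (Finset.mem_univ i)

theorem ha' (i : μ) (j : Fin 4) : A.a j = A.l i * A.h i j + A.g i * A.lam i j := A.ha i j

theorem f_ne [IsDomain R] : A.f ≠ 0 := Finset.prod_ne_zero_iff.2 fun i _ => (A.prime i).ne_zero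

theorem not_dvd_g (i : μ) : ¬ A.l i ∣ A.g i := fun h => by
  obtain ⟨n, hn, h⟩ := ((A.prime i).dvd_finsetProd_iff _).1 h
  exact A.ndvd i n (Finset.ne_of_mem_erase hn).symm h

theorem dvd_g {i n : μ} (h : i ≠ n) : A.l i ∣ A.g n :=
  Finset.dvd_prod_of_mem _ (Finset.mem_erase.2 ⟨h, Finset.mem_univ _⟩)

theorem f_dvd [IsDomain R] {r : R} (h : ∀ i, A.l i ∣ r) : A.f ∣ r := by
  have : ∀ S : Finset μ, (∏ i ∈ S, A.l i) ∣ r := by
    intro S
    induction S using Finset.induction_on with
    | empty => simp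
    | insert i S hi ih =>
      obtain ⟨e, rfl⟩ := ih
      rw [Finset.prod_insert hi, mul_comm]
      refine mul_dvd_mul_left _ (((A.prime i).dvd_or_dvd (h i)).resolve_left fun h' => ?_)
      obtain ⟨n, hn, h'⟩ := ((A.prime i).dvd_finsetProd_iff _).1 h'
      exact A.ndvd i n (fun e => hi (e ▸ hn)) h'
  exact this _

theorem mem_span_g {i : μ} {r : R} (h : ∀ j, j ≠ i → r ∈ Ideal.span {A.l i, A.l j}) :
    ∃ c, A.l i ∣ r - c * A.g i := by
  have : ∀ S : Finset μ, i ∉ S → ∃ c, A.l i ∣ r - c * ∏ n ∈ S, A.l n := by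
    intro S
    induction S using Finset.induction_on with
    | empty => exact fun _ => ⟨r, by simp⟩
    | insert j S hj ih =>
      intro hi
      have hij : j ≠ i := fun e => hi (e ▸ Finset.mem_insert_self _ _)
      obtain ⟨c, e, he⟩ := ih fun h' => hi (Finset.mem_insert_of_mem h')
      have hP := A.prime2 i j hij.symm
      have h1 : c * ∏ n ∈ S, A.l n ∈ Ideal.span {A.l i, A.l j} := by
        have : c * ∏ n ∈ S, A.l n = r - A.l i * e := by linear_combination -he
        rw [this]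
        exact Ideal.sub_mem _ (h j hij)
          (Ideal.mul_mem_right _ _ (Ideal.subset_span (by simp)))
      have h2 : c ∈ Ideal.span {A.l i, A.l j} := by
        refine (hP.mem_or_mem h1).resolve_right fun h' => ?_
        obtain ⟨n, hn, h'⟩ := Ideal.IsPrime.prod_mem_iff.1 h'
        exact A.nmem2 i j n hij.symm (fun e => hi (e ▸ Finset.mem_insert_of_mem hn))
          (fun e => hj (e ▸ hn)) h'
      obtain ⟨u, v, rfl⟩ := Ideal.mem_span_pair.1 h2
      refine ⟨v, e + u * ∏ n ∈ S, A.l n, ?_⟩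
      rw [Finset.prod_insert hj]
      linear_combination he
  exact this _ (Finset.notMem_erase i _)

/-- The parametrisation of the logarithmic one-forms (multiplied by `f`). -/
def par (c : μ → R) (ν : Fin 4 → R) : Fin 4 → R :=
  fun j => ∑ i, c i * (A.g i * A.lam i j) + A.f * ν j

theorem par_log (c : μ → R) (ν : Fin 4 → R) : ∃ η : Matrix (Fin 4) (Fin 4) R,
    ∀ j k, A.a j * A.par c ν k - A.a k * A.par c ν j = A.f * η j k := by
  refine ⟨Matrix.of fun j k => ∑ i, c i * (A.h i j * A.lam i k - A.h i k * A.lam i j) +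
    (A.a j * ν k - A.a k * ν j), fun j k => ?_⟩
  simp only [par, of_apply, mul_add, Finset.mul_sum]
  have : ∀ i, A.f * (c i * (A.h i j * A.lam i k - A.h i k * A.lam i j)) =
      A.a j * (c i * (A.g i * A.lam i k)) - A.a k * (c i * (A.g i * A.lam i j)) := by
    intro i
    rw [← A.l_mul_g i, A.ha' i j, A.ha' i k]
    ring
  simp only [this, Finset.sum_sub_distrib]
  ring

theorem exists_par [IsDomain R] {α : Fin 4 → R}
    (hα : ∀ j k, A.f ∣ A.a j * α k - A.a k * α j) : ∃ c ν, α = A.par c ν := by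
  have h1 : ∀ i, ∃ ρ, ∀ k, A.l i ∣ α k - ρ * A.lam i k := by
    intro i
    obtain ⟨v, hv⟩ := A.dual1 i
    refine ⟨α ⬝ᵥ v, fun k => ?_⟩
    have h2 : ∀ j, A.l i ∣ A.lam i j * α k - A.lam i k * α j := by
      intro j
      have h3 : A.l i ∣ A.a j * α k - A.a k * α j := (Dvd.intro _ (A.l_mul_g i)).trans (hα j k)
      have h4 : A.l i ∣ A.g i * (A.lam i j * α k - A.lam i k * α j) := by
        have : A.g i * (A.lam i j * α k - A.lam i k * α j) = (A.a j * α k - A.a k * α j) -
            A.l i * (A.h i j * α k - A.h i k * α j) := by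
          rw [A.ha' i j, A.ha' i k]
          ring
        rw [this]
        exact dvd_sub h3 (dvd_mul_right _ _)
      exact ((A.prime i).dvd_or_dvd h4).resolve_left (A.not_dvd_g i)
    have : α k - α ⬝ᵥ v * A.lam i k = ∑ j, (A.lam i j * α k - A.lam i k * α j) * v j := by
      have h5 : α k = (A.lam i ⬝ᵥ v) * α k := by rw [hv, one_mul]
      conv_lhs => rw [h5]
      simp only [dotProduct, Fin.sum_univ_four]
      ring
    rw [this]
    exact Finset.dvd_sum fun j _ => (h2 j).mul_right _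
  choose ρ hρ using h1
  have h2 : ∀ i, ∃ c, A.l i ∣ ρ i - c * A.g i := by
    intro i
    refine A.mem_span_g fun j hj => ?_
    obtain ⟨v, hv, hv'⟩ := A.dual2 i j hj.symm
    choose e he using hρ i
    choose e' he' using hρ j
    refine Ideal.mem_span_pair.2 ⟨-(e ⬝ᵥ v), e' ⬝ᵥ v, ?_⟩
    simp only [dotProduct, Fin.sum_univ_four] at hv hv' ⊢
    linear_combination v 0 * (he 0 - he' 0) + v 1 * (he 1 - he' 1) + v 2 * (he 2 - he' 2) +
      v 3 * (he 3 - he' 3) + ρ i * hv - ρ j * hv'
  choose c hc using h2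
  have h3 : ∀ k, A.f ∣ α k - ∑ i, c i * (A.g i * A.lam i k) := by
    intro k
    refine A.f_dvd fun i => ?_
    rw [← Finset.add_sum_erase _ _ (Finset.mem_univ i)]
    have : α k - (c i * (A.g i * A.lam i k) + ∑ n ∈ Finset.univ.erase i,
        c n * (A.g n * A.lam n k)) = (α k - ρ i * A.lam i k) + (ρ i - c i * A.g i) * A.lam i k -
        ∑ n ∈ Finset.univ.erase i, c n * (A.g n * A.lam n k) := by ring
    rw [this]
    refine dvd_sub (dvd_add (hρ i k) ((hc i).mul_right _)) (Finset.dvd_sum fun n hn => ?_)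
    exact ((A.dvd_g (Finset.ne_of_mem_erase hn).symm).mul_right _).mul_left _
  choose ν hν using h3
  exact ⟨c, ν, funext fun k => by rw [par, ← hν k]; ring⟩

theorem par_zero [IsDomain R] {c : μ → R} {ν : Fin 4 → R} (h : A.par c ν = 0) :
    ∃ b : μ → R, (∀ i, c i = A.l i * b i) ∧ ∀ j, ∑ i, b i * A.lam i j + ν j = 0 := by
  have h1 : ∀ i, A.l i ∣ c i := by
    intro i
    obtain ⟨v, hv⟩ := A.dual1 i
    have h2 : ∀ j, A.l i ∣ c i * (A.g i * A.lam i j) := by
      intro j
      have h3 := congrFun h j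
      rw [par, ← Finset.add_sum_erase _ _ (Finset.mem_univ i), Pi.zero_apply] at h3
      have : c i * (A.g i * A.lam i j) = -(∑ n ∈ Finset.univ.erase i,
          c n * (A.g n * A.lam n j)) - A.f * ν j := by linear_combination h3
      rw [this]
      refine dvd_sub (dvd_neg.2 (Finset.dvd_sum fun n hn => ?_))
        ((Dvd.intro _ (A.l_mul_g i)).mul_right _)
      exact ((A.dvd_g (Finset.ne_of_mem_erase hn).symm).mul_right _).mul_left _
    have h4 : A.l i ∣ c i * A.g i := by
      have : c i * A.g i = ∑ j, c i * (A.g i * A.lam i j) * v j := by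
        simp only [dotProduct, Fin.sum_univ_four] at hv ⊢
        linear_combination -(c i * A.g i) * hv
      rw [this]
      exact Finset.dvd_sum fun j _ => (h2 j).mul_right _
    exact ((A.prime i).dvd_or_dvd h4).resolve_right (A.not_dvd_g i)
  choose b hb using h1
  refine ⟨b, hb, fun j => mul_left_cancel₀ A.f_ne ?_⟩
  have h3 := congrFun h j
  rw [par, Pi.zero_apply] at h3
  rw [mul_zero, ← h3, mul_add, Finset.mul_sum]
  congr 1
  refine Finset.sum_congr rfl fun i _ => ?_
  rw [hb i, ← A.l_mul_g i]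
  ring

theorem par_comb3 (x y u : R) (c c' c'' : μ → R) (ν ν' ν'' : Fin 4 → R) :
    A.par (x • c - y • c' + u • c'') (x • ν - y • ν' + u • ν'') =
      x • A.par c ν - y • A.par c' ν' + u • A.par c'' ν'' := by
  ext j
  simp only [par, Pi.add_apply, Pi.sub_apply, Pi.smul_apply, smul_eq_mul, mul_add, add_mul,
    sub_mul, mul_sub, Finset.sum_add_distrib, Finset.sum_sub_distrib, Finset.mul_sum, mul_assoc]
  ring

/-- Depth of the module of logarithmic one-forms at the origin. -/
theorem chase [IsDomain R] {y : Fin 4 → R} (hy : Reg4 (y 0) (y 1) (y 2) (y 3))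
    {α : Fin 4 → Fin 4 → Fin 4 → R}
    (hα : ∀ s t j k, A.f ∣ A.a j * α s t k - A.a k * α s t j)
    (hc : ∀ s t u, y s • α t u - y t • α s u + y u • α s t = 0) :
    ∃ c c' ν ν', α 0 1 = y 0 • A.par c ν + y 1 • A.par c' ν' := by
  choose c ν hcν using fun s t => A.exists_par (hα s t)
  have h1 : ∀ s t u, ∃ b : μ → R,
      (∀ i, (y s • c t u - y t • c s u + y u • c s t) i = A.l i * b i) ∧
      ∀ j, ∑ i, b i * A.lam i j + (y s • ν t u - y t • ν s u + y u • ν s t) j = 0 := by
    intro s t u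
    refine A.par_zero ?_
    rw [par_comb3, ← hcν, ← hcν, ← hcν, hc]
  choose b hb hb' using h1
  simp only [Pi.add_apply, Pi.sub_apply, Pi.smul_apply, smul_eq_mul] at hb hb'
  have h2 : ∀ i, ∃ q₀ q₁ q₂, b 0 1 2 i = y 0 * q₀ + y 1 * q₁ + y 2 * q₂ := by
    intro i
    refine hy.r3 _ (b 1 2 3 i) (-b 0 2 3 i) (b 0 1 3 i) ?_
    apply mul_left_cancel₀ (A.prime i).ne_zero
    linear_combination -y 3 * hb 0 1 2 i + y 0 * hb 1 2 3 i - y 1 * hb 0 2 3 i + y 2 * hb 0 1 3 i
  choose q₀ q₁ q₂ hq using h2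
  have h3 : ∀ i, ∃ e₀ e₁, c 0 1 i - A.l i * q₂ i = y 0 * e₀ + y 1 * e₁ := by
    intro i
    refine hy.r2 _ (A.l i * q₀ i - c 1 2 i) (A.l i * q₁ i + c 0 2 i) ?_
    linear_combination hb 0 1 2 i + A.l i * hq i
  choose e₀ e₁ he using h3
  have h4 : ∀ j, ∃ n₀ n₁, ∑ i, q₂ i * A.lam i j + ν 0 1 j = y 0 * n₀ + y 1 * n₁ := by
    intro j
    refine hy.r2 _ (-(∑ i, q₀ i * A.lam i j) - ν 1 2 j) (-(∑ i, q₁ i * A.lam i j) + ν 0 2 j) ?_
    have h5 := hb' 0 1 2 j
    simp only [hq, add_mul, Finset.sum_add_distrib, mul_assoc, ← Finset.mul_sum] at h5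
    linear_combination h5
  choose n₀ n₁ hn using h4
  refine ⟨e₀, e₁, n₀, n₁, funext fun j => ?_⟩
  rw [hcν]
  simp only [par, Pi.add_apply, Pi.smul_apply, smul_eq_mul]
  have h6 : ∀ i, c 0 1 i * (A.g i * A.lam i j) = y 0 * (e₀ i * (A.g i * A.lam i j)) +
      y 1 * (e₁ i * (A.g i * A.lam i j)) + A.f * (q₂ i * A.lam i j) := by
    intro i
    rw [← A.l_mul_g i]
    linear_combination (A.g i * A.lam i j) * he i
  simp only [h6, Finset.sum_add_distrib, ← Finset.mul_sum]
  linear_combination A.f * hn j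

/-- No element of the first Koszul homology is killed by a regular sequence of length four. -/
theorem kos_four [IsDomain R] [CharZero R] {y : Fin 4 → R}
    (hy : Reg4 (y 0) (y 1) (y 2) (y 3)) {θ : Fin 4 → R} (h : ∀ s, y s • θ ∈ kos A.a) :
    θ ∈ kos A.a := by
  choose β hβ hθ using h
  let z : Fin 4 → Fin 4 → Matrix (Fin 4) (Fin 4) R := fun s t => y s • β t - y t • β s
  have hz : ∀ s t, (z s t)ᵀ = -z s t := by
    intro s t
    simp only [z]
    rw [transpose_sub, transpose_smul, transpose_smul, hβ, hβ, smul_neg, smul_neg]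
    abel
  have hza : ∀ s t, z s t *ᵥ A.a = 0 := by
    intro s t
    simp only [z]
    rw [sub_mulVec, smul_mulVec, smul_mulVec, ← hθ, ← hθ, smul_comm, sub_self]
  have hw : ∀ s t j k, A.a j * (A.x ᵥ* star4 (z s t)) k - A.a k * (A.x ᵥ* star4 (z s t)) j =
      A.f * (A.m * star4 (z s t) j k) := by
    intro s t j k
    rw [star4_wedge (hz s t) (hza s t), A.euler, f]
    ring
  obtain ⟨c, c', ν, ν', H⟩ := A.chase hy (α := fun s t => A.x ᵥ* star4 (z s t))
    (fun s t j k => ⟨_, hw s t j k⟩) fun s t u => by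
      rw [← vecMul_smul, ← vecMul_smul, ← vecMul_smul, ← vecMul_sub, ← vecMul_add, ← star4_comb3]
      have : y s • z t u - y t • z s u + y u • z s t = 0 := by
        simp only [z]
        module
      rw [this, star4_zero, vecMul_zero]
  obtain ⟨η, hη⟩ := A.par_log c ν
  obtain ⟨η', hη'⟩ := A.par_log c' ν'
  have h1 : star4 (z 0 1) = (y 0 * A.m') • η + (y 1 * A.m') • η' := by
    ext j k
    apply mul_left_cancel₀ A.f_ne
    have h2 := hw 0 1 j k
    rw [H] at h2
    simp only [Pi.add_apply, Pi.smul_apply, smul_eq_mul, Matrix.add_apply, Matrix.smul_apply]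
      at h2 ⊢
    linear_combination -A.m' * h2 + y 0 * A.m' * hη j k + y 1 * A.m' * hη' j k -
      A.f * star4 (z 0 1) j k * A.hm
  refine kos_of_split hy.r0 hy.r1 (β₁ := β 1) (ζ₀ := A.m' • star4 η) (ζ₁ := A.m' • star4 η')
    (hβ 0) (by rw [transpose_smul, star4_alt, smul_neg]) (hθ 0)
    (by rw [smul_mulVec, star4_mulVec A.f_ne hη', smul_zero]) ?_
  change z 0 1 = _
  rw [← star4_star4 (hz 0 1), h1, star4_comb, smul_smul, smul_smul]

end Arr

end Pool.Agent.MP_1ca51f_al

end

-- part MP_1ca51f_al.Forms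
section

/-!
Linear forms in a polynomial ring: the ideals they generate are prime, independent forms are
regular sequences, and derivatives of products of forms.
-/

namespace Pool.Agent.MP_1ca51f_al

open Matrix MvPolynomial

variable {k : Type*} [Field k] {σ : Type*} [Fintype σ]

/-- The linear form with coefficient vector `v`. -/
noncomputable def lin : (σ → k) →ₗ[k] MvPolynomial σ k := Fintype.linearCombination k X

theorem lin_apply (v : σ → k) : lin v = ∑ j, C (v j) * (X j : MvPolynomial σ k) := by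
  simp [lin, Fintype.linearCombination_apply, smul_eq_C_mul]

theorem lin_injective : Function.Injective (lin : (σ → k) → MvPolynomial σ k) :=
  linearIndependent_iff_injective_fintypeLinearCombination.1 (linearIndependent_X σ k)

theorem lin_single [DecidableEq σ] (j : σ) : lin (Pi.single j (1 : k)) = X j := by
  simp [lin, Fintype.linearCombination_apply_single]

theorem lin_mem_span {S : Set (σ → k)} {v : σ → k} (hv : v ∈ Submodule.span k S) :
    lin v ∈ Ideal.span (lin '' S) := by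
  induction hv using Submodule.span_induction with
  | mem x hx => exact Ideal.subset_span ⟨x, hx, rfl⟩
  | zero => simp
  | add x y _ _ hx hy => rw [map_add]; exact Ideal.add_mem _ hx hy
  | smul c x _ hx => rw [map_smul, smul_eq_C_mul]; exact Ideal.mul_mem_left _ _ hx

theorem span_lin (S : Set (σ → k)) : (Ideal.span (lin '' S)).IsPrime ∧
    ∀ v, lin v ∈ Ideal.span (lin '' S) → v ∈ Submodule.span k S := by
  classical
  obtain ⟨W', hW⟩ := (Submodule.span k S).exists_isCompl
  let π : (σ → k) →ₗ[k] (σ → k) := (Submodule.span k S).subtype ∘ₗ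
    (Submodule.span k S).projectionOnto W' hW
  have hπ : ∀ v, π v ∈ Submodule.span k S := fun v => Subtype.mem _
  have hπ' : ∀ v ∈ Submodule.span k S, π v = v := fun v hv => by
    simp only [π, LinearMap.comp_apply, Submodule.subtype_apply]
    rw [show v = ((⟨v, hv⟩ : Submodule.span k S) : σ → k) from rfl,
      Submodule.projectionOnto_apply_left]
  let Φ : MvPolynomial σ k →ₐ[k] MvPolynomial σ k :=
    aeval fun j => X j - lin (π (Pi.single j 1))
  have hΦ : ∀ v, Φ (lin v) = lin v - lin (π v) := by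
    intro v
    have : Φ.toLinearMap ∘ₗ lin = lin - lin ∘ₗ π := by
      ext1 j
      ext1
      simp [Φ, lin_single]
    exact LinearMap.congr_fun this v
  have hker : RingHom.ker Φ = Ideal.span (lin '' S) := by
    apply le_antisymm
    · have h1 : ∀ q, q - Φ q ∈ Ideal.span (lin '' S) := by
        intro q
        induction q using MvPolynomial.induction_on with
        | C c => simp [Φ]
        | add p q hp hq =>
          rw [map_add, add_sub_add_comm]
          exact Ideal.add_mem _ hp hq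
        | mul_X p j hp =>
          have : p * X j - Φ (p * X j) = (p - Φ p) * X j + Φ p * lin (π (Pi.single j 1)) := by
            simp only [map_mul, Φ, aeval_X]
            ring
          rw [this]
          exact Ideal.add_mem _ (Ideal.mul_mem_right _ _ hp)
            (Ideal.mul_mem_left _ _ (lin_mem_span (hπ _)))
      intro q hq
      have := h1 q
      rwa [RingHom.mem_ker.1 hq, sub_zero] at this
    · rw [Ideal.span_le]
      rintro _ ⟨v, hv, rfl⟩
      exact RingHom.mem_ker.2 (by rw [hΦ, hπ' v (Submodule.subset_span hv), sub_self])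
  refine ⟨hker ▸ RingHom.ker_isPrime Φ, fun v hv => ?_⟩
  rw [← hker, RingHom.mem_ker, hΦ, sub_eq_zero] at hv
  rw [lin_injective hv]
  exact hπ v

theorem mem_of_lin_mul {S : Set (σ → k)} {v : σ → k} (hv : v ∉ Submodule.span k S)
    {c : MvPolynomial σ k} (h : lin v * c ∈ Ideal.span (lin '' S)) :
    c ∈ Ideal.span (lin '' S) :=
  ((span_lin S).1.mem_or_mem h).resolve_left fun h' => hv ((span_lin S).2 v h')

theorem reg3 {u₀ u₁ u₂ : σ → k} (h0 : u₀ ≠ 0) (h1 : u₁ ∉ Submodule.span k {u₀})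
    (h2 : u₂ ∉ Submodule.span k {u₀, u₁}) : Reg3 (lin u₀) (lin u₁) (lin u₂) where
  r0 := fun h => h0 (lin_injective (by rw [h, map_zero]))
  r1 := fun c d h => by
    have := mem_of_lin_mul h1 (c := c) (by
      rw [h, Set.image_singleton]
      exact Ideal.mul_mem_right _ _ (Ideal.subset_span rfl))
    rw [Set.image_singleton, Ideal.mem_span_singleton] at this
    exact this
  r2 := fun c d₀ d₁ h => by
    have := mem_of_lin_mul h2 (c := c) (by
      rw [h, Set.image_pair]
      exact Ideal.mem_span_pair.2 ⟨d₀, d₁, by ring⟩)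
    rw [Set.image_pair, Ideal.mem_span_pair] at this
    obtain ⟨a, b, rfl⟩ := this
    exact ⟨a, b, by ring⟩

theorem reg4 {u₀ u₁ u₂ u₃ : σ → k} (h0 : u₀ ≠ 0) (h1 : u₁ ∉ Submodule.span k {u₀})
    (h2 : u₂ ∉ Submodule.span k {u₀, u₁}) (h3 : u₃ ∉ Submodule.span k {u₀, u₁, u₂}) :
    Reg4 (lin u₀) (lin u₁) (lin u₂) (lin u₃) where
  toReg3 := reg3 h0 h1 h2
  r3 := fun c d₀ d₁ d₂ h => by
    have := mem_of_lin_mul h3 (c := c) (by
      rw [h, Set.image_insert_eq, Set.image_pair]
      exact Submodule.mem_span_triple.2 ⟨d₀, d₁, d₂, by simp only [smul_eq_mul]; ring⟩)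
    rw [Set.image_insert_eq, Set.image_pair] at this
    obtain ⟨a, b, e, rfl⟩ := Submodule.mem_span_triple.1 this
    exact ⟨a, b, e, by simp only [smul_eq_mul]; ring⟩

theorem exists_dual {κ : Type*} [Fintype κ] [DecidableEq κ] {u : κ → σ → k}
    (hu : LinearIndependent k u) :
    ∃ v : κ → σ → k, ∀ s t, u s ⬝ᵥ v t = if s = t then 1 else 0 := by
  classical
  obtain ⟨g, hg⟩ := LinearMap.exists_leftInverse_of_injective (Fintype.linearCombination k u)
    (LinearMap.ker_eq_bot.2 (linearIndependent_iff_injective_fintypeLinearCombination.1 hu))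
  refine ⟨fun t j => g (Pi.single j 1) t, fun s t => ?_⟩
  have h1 : g (u s) = Pi.single s 1 := by
    have := LinearMap.congr_fun hg (Pi.single s 1)
    simpa [Fintype.linearCombination_apply_single] using this
  have h2 : u s = ∑ j, u s j • (Pi.single j 1 : σ → k) := by
    ext j
    simp [Pi.single_apply]
  have h3 := congrFun h1 t
  rw [h2, map_sum] at h3
  simp only [map_smul, Finset.sum_apply, Pi.smul_apply, smul_eq_mul, Pi.single_apply] at h3
  rw [dotProduct, h3]
  simp only [eq_comm]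

/-- The derivative along the polynomial vector field `x`. -/
noncomputable def dd (x : σ → MvPolynomial σ k) (q : MvPolynomial σ k) : MvPolynomial σ k :=
  x ⬝ᵥ fun j => pderiv j q

theorem dd_mul (x : σ → MvPolynomial σ k) (p q : MvPolynomial σ k) :
    dd x (p * q) = p * dd x q + q * dd x p := by
  simp only [dd, dotProduct, Derivation.leibniz, smul_eq_mul, mul_add, Finset.sum_add_distrib,
    Finset.mul_sum]
  congr 1 <;> exact Finset.sum_congr rfl fun _ _ => by ring

theorem pderiv_lin (v : σ → k) (j : σ) : pderiv j (lin v) = C (v j) := by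
  classical
  simp [lin_apply, pderiv_X, Pi.single_apply]

theorem dd_lin (x : σ → MvPolynomial σ k) (v : σ → k) :
    dd x (lin v) = x ⬝ᵥ fun j => C (v j) := by
  simp only [dd, pderiv_lin]

theorem dd_const_lin (e v : σ → k) : dd (fun j => C (e j)) (lin v) = C (v ⬝ᵥ e) := by
  simp [dd_lin, dotProduct, mul_comm]

theorem dd_prod {μ : Type*} (x : σ → MvPolynomial σ k) (l : μ → MvPolynomial σ k)
    (c : MvPolynomial σ k) (S : Finset μ) (h : ∀ i ∈ S, dd x (l i) = c * l i) :
    dd x (∏ i ∈ S, l i) = (S.card * c) * ∏ i ∈ S, l i := by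
  classical
  induction S using Finset.induction_on with
  | empty => simp [dd]
  | insert i S hi ih =>
    rw [Finset.prod_insert hi, dd_mul, ih fun j hj => h j (Finset.mem_insert_of_mem hj),
      h i (Finset.mem_insert_self _ _), Finset.card_insert_of_notMem hi]
    push_cast
    ring

omit [Fintype σ] in
theorem natCast_not_mem [CharZero k] {p : Ideal (MvPolynomial σ k)} (hp : p.IsPrime) {n : ℕ}
    (hn : n ≠ 0) : (n : MvPolynomial σ k) ∉ p := fun h => by
  refine hp.ne_top (Ideal.eq_top_of_isUnit_mem _ h ?_)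
  have : IsUnit (n : k) := Ne.isUnit (Nat.cast_ne_zero.2 hn)
  simpa using this.map (C : k →+* MvPolynomial σ k)

/-- Near a prime `p`, the Jacobian ideal of the arrangement is generated by the derivatives
transversal to the flat through `p`. -/
theorem exists_elim [CharZero k] {μ κ : Type*} [Fintype μ] [Fintype κ] [DecidableEq κ]
    (lam : μ → σ → k) {p : Ideal (MvPolynomial σ k)} (hp : p.IsPrime) (u : κ → μ) (s₀ : κ)
    (hu : ∀ s, lin (lam (u s)) ∈ p) {v : κ → σ → k}
    (hv : ∀ s t, lam (u s) ⬝ᵥ v t = if s = t then 1 else 0)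
    (hA : ∀ i, lin (lam i) ∈ p → lam i ∈ Submodule.span k (Set.range fun s => lam (u s))) :
    ∃ (w : MvPolynomial σ k) (φ : Matrix σ κ (MvPolynomial σ k)), w ∉ p ∧
      w • (fun j => pderiv j (∏ i, lin (lam i))) =
        φ *ᵥ ((Matrix.of fun s j => C (v s j)) *ᵥ fun j => pderiv j (∏ i, lin (lam i))) := by
  classical
  set A := Finset.univ.filter fun i => lin (lam i) ∈ p
  set g := ∏ i ∈ A, lin (lam i) with hg
  set q := ∏ i ∈ Finset.univ.filter (fun i => lin (lam i) ∉ p), lin (lam i) with hq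
  have hf : ∏ i, lin (lam i) = g * q := (Finset.prod_filter_mul_prod_filter_not _ _ _).symm
  have hqp : q ∉ p := fun h => by
    obtain ⟨i, hi, h⟩ := Ideal.IsPrime.prod_mem_iff.1 h
    exact (Finset.mem_filter.1 hi).2 h
  have hexp : ∀ i ∈ A, lam i = ∑ s, (lam i ⬝ᵥ v s) • lam (u s) := by
    intro i hi
    obtain ⟨c, hc⟩ := (Submodule.mem_span_range_iff_exists_fun k).1
      (hA i (Finset.mem_filter.1 hi).2)
    have : ∀ t, lam i ⬝ᵥ v t = c t := by
      intro t
      rw [← hc, sum_dotProduct]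
      simp [smul_dotProduct, hv]
    simp only [this, hc]
  let y : κ → MvPolynomial σ k := fun s => lin (lam (u s))
  let x' : σ → MvPolynomial σ k := fun j => ∑ s, y s * C (v s j)
  have hx' : ∀ r, dd x' r = ∑ s, y s * dd (fun j => C (v s j)) r := by
    intro r
    simp only [dd, x', dotProduct, Finset.sum_mul, Finset.mul_sum, mul_assoc]
    exact Finset.sum_comm
  have h1 : dd x' g = (A.card * 1) * g := by
    refine dd_prod x' _ 1 A fun i hi => ?_
    rw [hx', one_mul]
    conv_rhs => rw [hexp i hi, map_sum]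
    refine Finset.sum_congr rfl fun s _ => ?_
    rw [dd_const_lin, map_smul, smul_eq_C_mul, mul_comm]
  let e : σ → σ → k := fun j => Pi.single j 1 - ∑ s, lam (u s) j • v s
  have h2 : ∀ j, dd (fun n => C (e j n)) g = (A.card * 0) * g := by
    intro j
    refine dd_prod _ _ 0 A fun i hi => ?_
    rw [dd_const_lin, zero_mul, C_eq_zero]
    have := congrFun (hexp i hi) j
    simp only [e, dotProduct_sub, dotProduct_single, mul_one, dotProduct_sum, dotProduct_smul,
      smul_eq_mul]
    rw [this, sub_eq_zero, Finset.sum_apply]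
    exact Finset.sum_congr rfl fun s _ => by simp [mul_comm]
  have h3 : ∀ j r, dd (fun n => C (e j n)) r =
      pderiv j r - ∑ s, C (lam (u s) j) * dd (fun n => C (v s n)) r := by
    intro j r
    simp only [dd, e, dotProduct, Pi.sub_apply, Finset.sum_apply, Pi.smul_apply, smul_eq_mul,
      map_sub, map_sum, map_mul, sub_mul, Finset.sum_sub_distrib, Finset.sum_mul, Finset.mul_sum,
      mul_assoc]
    congr 1
    · simp [Pi.single_apply]
    · exact Finset.sum_comm
  refine ⟨(A.card : MvPolynomial σ k) * q + dd x' q, Matrix.of fun j s =>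
    ((A.card : MvPolynomial σ k) * q + dd x' q) * C (lam (u s) j) +
      dd (fun n => C (e j n)) q * y s, fun h => ?_, ?_⟩
  · have h4 : dd x' q ∈ p := by
      rw [hx']
      exact Ideal.sum_mem _ fun s _ => Ideal.mul_mem_right _ _ (hu s)
    have h5 : (A.card : MvPolynomial σ k) * q ∈ p := by simpa using Ideal.sub_mem _ h h4
    refine natCast_not_mem hp (Finset.card_ne_zero.2 ⟨u s₀, ?_⟩)
      ((hp.mem_or_mem h5).resolve_right hqp)
    exact Finset.mem_filter.2 ⟨Finset.mem_univ _, hu s₀⟩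
  · ext1 j
    have h4 := h3 j (g * q)
    have h5 := hx' (g * q)
    rw [dd_mul, h2] at h4
    rw [dd_mul, h1] at h5
    rw [hf]
    have h6 : ∀ s, ((Matrix.of fun s j => C (v s j)) *ᵥ fun j => pderiv j (g * q)) s =
        dd (fun n => C (v s n)) (g * q) := fun s => rfl
    rw [Pi.smul_apply, smul_eq_mul, mulVec, dotProduct]
    simp only [h6, of_apply]
    generalize (fun s => dd (fun n => C (v s n)) (g * q)) = b at *
    simp only [add_mul _ (dd (fun n => C (e j n)) q * _), Finset.sum_add_distrib, mul_assoc,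
      ← Finset.mul_sum]
    rw [← h5]
    linear_combination -((A.card : MvPolynomial σ k) * q + dd x' q) * h4

end Pool.Agent.MP_1ca51f_al

end
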