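import Pool.Agent.MP_1ca51f_al.Mg.Forms
import Pool.Agent.MP_1ca51f_al.Defs

/-!
The Jacobian ideal of an arrangement in four variables in which any three forms are linearly
independent is syzygetic.
-/

namespace Pool.Agent.MP_1ca51f_al

open Matrix MvPolynomial

variable {k : Type*} [Field k] [CharZero k] {μ : Type*} [Fintype μ] [DecidableEq μ]

/-- Any one, two or three of the coefficient vectors are linearly independent. -/
structure Indep3 (lam : μ → Fin 4 → k) : Prop where
  i1 : ∀ i, LinearIndependent k ![lam i]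
  i2 : ∀ i j, i ≠ j → LinearIndependent k ![lam i, lam j]
  i3 : ∀ i j n, i ≠ j → n ≠ i → n ≠ j → LinearIndependent k ![lam i, lam j, lam n]

namespace Indep3

variable {lam : μ → Fin 4 → k} (H : Indep3 lam)
include H

omit [CharZero k] [Fintype μ] [DecidableEq μ]

theorem ne (i : μ) : lam i ≠ 0 := (H.i1 i).ne_zero 0

theorem n1 {i j : μ} (h : i ≠ j) : lam j ∉ Submodule.span k {lam i} := by
  have := (H.i2 i j h).notMem_span_image (s := {0}) (x := 1) (by decide)
  simpa using this

theorem n2 {i j n : μ} (h : i ≠ j) (h1 : n ≠ i) (h2 : n ≠ j) :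
    lam n ∉ Submodule.span k {lam i, lam j} := by
  have := (H.i3 i j n h h1 h2).notMem_span_image (s := {0, 1}) (x := 2) (by decide)
  simpa [Set.image_pair] using this

theorem prime (i : μ) : Prime (lin (lam i)) := by
  have h0 : lin (lam i) ≠ 0 := fun h => H.ne i (lin_injective (by rw [h, map_zero]))
  rw [← Ideal.span_singleton_prime h0, ← Set.image_singleton]
  exact (span_lin _).1

theorem ndvd {i j : μ} (h : i ≠ j) : ¬ lin (lam i) ∣ lin (lam j) := fun h' => by
  refine H.n1 h ((span_lin _).2 _ ?_)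
  rwa [Set.image_singleton, Ideal.mem_span_singleton]

end Indep3

omit [CharZero k] [DecidableEq μ] in
theorem euler (lam : μ → Fin 4 → k) :
    (X : Fin 4 → MvPolynomial (Fin 4) k) ⬝ᵥ (fun j => pderiv j (∏ i, lin (lam i))) =
      (Fintype.card μ : MvPolynomial (Fin 4) k) * ∏ i, lin (lam i) := by
  have := dd_prod X (fun i => lin (lam i)) 1 Finset.univ fun i _ => by
    rw [dd_lin, lin_apply, one_mul, dotProduct]
    exact Finset.sum_congr rfl fun _ _ => mul_comm _ _
  rw [mul_one, Finset.card_univ] at this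
  exact this

/-- The arrangement data attached to the coefficient vectors. -/
noncomputable def Indep3.arr {lam : μ → Fin 4 → k} (H : Indep3 lam) (hm : Fintype.card μ ≠ 0) :
    Arr (MvPolynomial (Fin 4) k) μ where
  l i := lin (lam i)
  lam i j := C (lam i j)
  a j := pderiv j (∏ i, lin (lam i))
  h i j := pderiv j (∏ n ∈ Finset.univ.erase i, lin (lam n))
  x := X
  m := Fintype.card μ
  m' := C ((Fintype.card μ : k)⁻¹)
  hm := by
    rw [← map_natCast (C : k →+* MvPolynomial (Fin 4) k), ← map_mul,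
      inv_mul_cancel₀ (Nat.cast_ne_zero.2 hm), map_one]
  ha i j := by
    rw [← Finset.mul_prod_erase _ _ (Finset.mem_univ i), Derivation.leibniz, pderiv_lin,
      smul_eq_mul, smul_eq_mul]
  euler := euler lam
  prime := H.prime
  ndvd _ _ h := H.ndvd h
  prime2 i j _ := by
    rw [← Set.image_pair]
    exact (span_lin _).1
  nmem2 i j n h h1 h2 h' := by
    rw [← Set.image_pair] at h'
    exact H.n2 h h1 h2 ((span_lin _).2 _ h')
  dual1 i := by
    obtain ⟨v, hv⟩ := exists_dual (H.i1 i)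
    refine ⟨fun j => C (v 0 j), ?_⟩
    have := congrArg (C : k →+* MvPolynomial (Fin 4) k) (hv 0 0)
    simpa [dotProduct] using this
  dual2 i j h := by
    obtain ⟨v, hv⟩ := exists_dual (H.i2 i j h)
    refine ⟨fun j => C (v 0 j), ?_, ?_⟩
    · have := congrArg (C : k →+* MvPolynomial (Fin 4) k) (hv 0 0)
      simpa [dotProduct] using this
    · have := congrArg (C : k →+* MvPolynomial (Fin 4) k) (hv 1 0)
      simpa [dotProduct] using this

omit [CharZero k] [DecidableEq μ] in
theorem dd_mem (lam : μ → Fin 4 → k) (x : Fin 4 → MvPolynomial (Fin 4) k) :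
    dd x (∏ i, lin (lam i)) ∈ Ideal.span (Set.range fun j => pderiv j (∏ i, lin (lam i))) := by
  unfold dd dotProduct
  exact Ideal.sum_mem _ fun j _ =>
    Ideal.mul_mem_left _ _ (Ideal.subset_span (Set.mem_range_self j))

theorem Indep3.local {lam : μ → Fin 4 → k} (H : Indep3 lam) (hm : Fintype.card μ ≠ 0)
    (p : Ideal (MvPolynomial (Fin 4) k)) (hp : p.IsPrime) (θ : Fin 4 → MvPolynomial (Fin 4) k)
    (hθ : θ ⬝ᵥ (fun j => pderiv j (∏ i, lin (lam i))) = 0)
    (hJ : ∀ j, θ j ∈ Ideal.span (Set.range fun j => pderiv j (∏ i, lin (lam i))))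
    (hk : ∀ r ∈ p, r • θ ∈ kos fun j => pderiv j (∏ i, lin (lam i)))
    (hJp : ∀ r ∈ Ideal.span (Set.range fun j => pderiv j (∏ i, lin (lam i))), r ∈ p) :
    ∃ s, s ∉ p ∧ s • θ ∈ kos fun j => pderiv j (∏ i, lin (lam i)) := by
  have hf : ∏ i, lin (lam i) ∈ p := by
    have h1 := hJp _ (dd_mem lam X)
    rw [dd, euler] at h1
    exact (hp.mem_or_mem h1).resolve_left (natCast_not_mem hp hm)
  obtain ⟨i₀, -, h₀⟩ := Ideal.IsPrime.prod_mem_iff.1 hf
  obtain ⟨i₁, n₁₀, h₁⟩ : ∃ i₁, i₁ ≠ i₀ ∧ lin (lam i₁) ∈ p := by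
    obtain ⟨v, hv⟩ := exists_dual (H.i1 i₀)
    have h1 := hJp _ (dd_mem lam fun j => C (v 0 j))
    have h2 : lam i₀ ⬝ᵥ v 0 = 1 := by simpa using hv 0 0
    rw [← Finset.mul_prod_erase _ _ (Finset.mem_univ i₀), dd_mul, dd_const_lin, h2, map_one,
      mul_one] at h1
    have h3 := (Ideal.add_mem_iff_right _ (Ideal.mul_mem_right _ _ h₀)).1 h1
    obtain ⟨i₁, hi, h⟩ := Ideal.IsPrime.prod_mem_iff.1 h3
    exact ⟨i₁, Finset.ne_of_mem_erase hi, h⟩
  by_cases h2 : ∃ i₂, i₂ ≠ i₀ ∧ i₂ ≠ i₁ ∧ lin (lam i₂) ∈ p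
  · obtain ⟨i₂, n₂₀, n₂₁, h₂⟩ := h2
    by_cases h3 : ∃ i₃, lin (lam i₃) ∈ p ∧ lam i₃ ∉ Submodule.span k {lam i₀, lam i₁, lam i₂}
    · obtain ⟨i₃, h₃, n₃⟩ := h3
      refine ⟨1, fun h => hp.ne_top ((Ideal.eq_top_iff_one _).2 h), ?_⟩
      rw [one_smul]
      refine (H.arr hm).kos_four (y := ![lin (lam i₀), lin (lam i₁), lin (lam i₂), lin (lam i₃)])
        (reg4 (H.ne i₀) (H.n1 n₁₀.symm) (H.n2 n₁₀.symm n₂₀ n₂₁) n₃) fun s => hk _ ?_
      fin_cases s
      exacts [h₀, h₁, h₂, h₃]
    · push Not at h3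
      obtain ⟨v, hv⟩ := exists_dual (H.i3 i₀ i₁ i₂ n₁₀.symm n₂₀ n₂₁)
      have hu : (fun s => lam (![i₀, i₁, i₂] s)) = ![lam i₀, lam i₁, lam i₂] := by
        ext1 s
        fin_cases s <;> rfl
      obtain ⟨w, φ, hw, hφ⟩ := exists_elim lam hp ![i₀, i₁, i₂] 0
        (fun s => by fin_cases s; exacts [h₀, h₁, h₂]) (v := v)
        (fun s t => by rw [← hv s t, ← hu])
        (fun i hi => by
          rw [hu]
          simpa only [Matrix.range_cons, Matrix.range_empty, Set.union_empty,
            Set.singleton_union] using h3 i hi)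
      have := kos_three (reg3 (H.ne i₀) (H.n1 n₁₀.symm) (H.n2 n₁₀.symm n₂₀ n₂₁))
        (elim_down hφ (hk _ h₀)) (elim_down hφ (hk _ h₁)) (elim_down hφ (hk _ h₂))
      exact ⟨w * w, fun h => hw ((hp.mem_or_mem h).elim id id), elim_up hφ hJ this⟩
  · push Not at h2
    obtain ⟨v, hv⟩ := exists_dual (H.i2 i₀ i₁ n₁₀.symm)
    have hu : (fun s => lam (![i₀, i₁] s)) = ![lam i₀, lam i₁] := by
      ext1 s
      fin_cases s <;> rfl
    obtain ⟨w, φ, hw, hφ⟩ := exists_elim lam hp ![i₀, i₁] 0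
      (fun s => by fin_cases s; exacts [h₀, h₁]) (v := v)
      (fun s t => by rw [← hv s t, ← hu])
      (fun i hi => by
        refine Submodule.subset_span ?_
        by_cases e₀ : i = i₀
        · exact ⟨0, by simp [e₀]⟩
        · by_cases e₁ : i = i₁
          · exact ⟨1, by simp [e₁]⟩
          · exact absurd hi (h2 i e₀ e₁))
    set q := ∏ n ∈ (Finset.univ.erase i₀).erase i₁, lin (lam n) with hq
    have hfq : ∏ i, lin (lam i) = lin (lam i₀) * (lin (lam i₁) * q) := by
      rw [← Finset.mul_prod_erase _ _ (Finset.mem_univ i₀),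
        ← Finset.mul_prod_erase _ _ (Finset.mem_erase.2 ⟨n₁₀, Finset.mem_univ i₁⟩)]
    have hqp : q ∉ p := fun h => by
      obtain ⟨n, hn, h⟩ := Ideal.IsPrime.prod_mem_iff.1 h
      exact h2 n (Finset.ne_of_mem_erase (Finset.mem_of_mem_erase hn))
        (Finset.ne_of_mem_erase hn) h
    have v00 : lam i₀ ⬝ᵥ v 0 = 1 := by simpa using hv 0 0
    have v01 : lam i₀ ⬝ᵥ v 1 = 0 := by simpa using hv 0 1
    have v10 : lam i₁ ⬝ᵥ v 0 = 0 := by simpa using hv 1 0
    have v11 : lam i₁ ⬝ᵥ v 1 = 1 := by simpa using hv 1 1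
    have hb : ((Matrix.of fun s j => C (v s j)) *ᵥ fun j => pderiv j (∏ i, lin (lam i))) =
        ![lin (lam i₁) * (q + lin (lam i₀) * dd (fun j => C (v 0 j)) q),
          lin (lam i₀) * (q + lin (lam i₁) * dd (fun j => C (v 1 j)) q)] := by
      ext1 s
      change dd (fun j => C (v s j)) (∏ i, lin (lam i)) = _
      rw [hfq, dd_mul, dd_mul, dd_const_lin, dd_const_lin]
      fin_cases s
      · simp [v00, v10]
        ring
      · simp [v01, v11, add_comm]
    have hsyz := elim_syz hφ hθ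
    rw [hb] at hsyz
    have hs : ∀ {y r : MvPolynomial (Fin 4) k}, y ∈ p → q + y * r ∉ p := fun hy h =>
      hqp ((Ideal.add_mem_iff_left _ (Ideal.mul_mem_right _ _ hy)).1 h)
    have := kos_two (H.prime i₀).ne_zero (fun c hc => by
      refine ((H.prime i₀).dvd_or_dvd hc).resolve_right fun h => ?_
      rcases (H.prime i₀).dvd_or_dvd h with h | h
      · exact H.ndvd n₁₀.symm h
      · exact hs h₀ (Ideal.mem_of_dvd _ h h₀)) hsyz
    rw [← hb] at this
    exact ⟨_, fun h => (hp.mem_or_mem h).elim (hs h₁) hw, elim_up hφ hJ this⟩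

theorem Indep3.kos_mem {lam : μ → Fin 4 → k} (H : Indep3 lam)
    {θ : Fin 4 → MvPolynomial (Fin 4) k}
    (hθ : θ ⬝ᵥ (fun j => pderiv j (∏ i, lin (lam i))) = 0)
    (hJ : ∀ j, θ j ∈ Ideal.span (Set.range fun j => pderiv j (∏ i, lin (lam i)))) :
    θ ∈ kos fun j => pderiv j (∏ i, lin (lam i)) := by
  by_cases hm : Fintype.card μ = 0
  · have := Fintype.card_eq_zero_iff.1 hm
    have h0 : θ = 0 := by
      ext1 j
      have := hJ j
      simpa using this
    rw [h0]
    exact zero_mem _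
  · exact kos_of_local _ (H.local hm) hθ hJ

/-- The criterion of Simis and Vasconcelos, in the direction needed here. -/
theorem syzygetic_of_kos {R : Type*} [CommRing R] (h2 : IsUnit (2 : R)) {ι : Type*} [Fintype ι]
    (a : ι → R) (H : ∀ θ : ι → R, θ ⬝ᵥ a = 0 → (∀ j, θ j ∈ Ideal.span (Set.range a)) →
      θ ∈ kos a) : IsSyzygetic (Ideal.span (Set.range a)) := by
  set J := Ideal.span (Set.range a)
  intro s hs h0
  let t : ι → J := fun i => ⟨a i, Ideal.subset_span ⟨i, rfl⟩⟩
  have hgen : ∀ x : J, ∃ c : ι → R, x = ∑ i, c i • t i := by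
    rintro ⟨x, hx⟩
    obtain ⟨c, rfl⟩ := (Submodule.mem_span_range_iff_exists_fun R).1 hx
    exact ⟨c, Subtype.ext (by simp [t])⟩
  obtain ⟨θ, rfl⟩ : ∃ θ : ι → J,
      s = ∑ i, SymmetricAlgebra.ι R J (t i) * SymmetricAlgebra.ι R J (θ i) := by
    rw [sq] at hs
    refine Submodule.mul_induction_on hs ?_ ?_
    · rintro _ ⟨x, rfl⟩ _ ⟨y, rfl⟩
      obtain ⟨c, rfl⟩ := hgen x
      refine ⟨fun i => c i • y, ?_⟩
      simp only [map_sum, map_smul, Finset.sum_mul, smul_mul_assoc, mul_smul_comm]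
    · rintro _ _ ⟨θ, rfl⟩ ⟨θ', rfl⟩
      exact ⟨θ + θ', by simp only [Pi.add_apply, map_add, mul_add, Finset.sum_add_distrib]⟩
  obtain ⟨β, hβ, hθ⟩ := H (fun i => θ i) (by
    simp only [map_sum, map_mul, SymmetricAlgebra.lift_ι_apply, Submodule.subtype_apply, t] at h0
    rw [dotProduct_comm]
    exact h0) fun j => (θ j).2
  have hθ' : ∀ i, θ i = ∑ j, β i j • t j := fun i => Subtype.ext (by
    have := congrFun hθ i
    simpa [t, mulVec, dotProduct] using this)
  simp only [hθ', map_sum, map_smul, Finset.mul_sum, mul_smul_comm]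
  set T := fun i => SymmetricAlgebra.ι R J (t i)
  have h3 : ∑ i, ∑ j, β i j • (T i * T j) = -∑ i, ∑ j, β i j • (T i * T j) := by
    conv_lhs => rw [Finset.sum_comm]
    simp only [← Finset.sum_neg_distrib]
    refine Finset.sum_congr rfl fun i _ => Finset.sum_congr rfl fun j _ => ?_
    rw [alt_swap hβ i j, neg_smul, mul_comm]
  have h4 : (2 : R) • ∑ i, ∑ j, β i j • (T i * T j) = 0 := by
    rw [two_smul]
    exact add_eq_zero_iff_eq_neg.2 h3
  exact (h2.smul_eq_zero).1 h4

omit [CharZero k] in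
theorem indep_of_circuits {V : Type*} [AddCommGroup V] [Module k V] {m : ℕ} {l : Fin m → V}
    (hg : ∀ C, IsCircuit k l C → 4 ≤ C.card) {r : ℕ} (hr : r ≤ 3) {u : Fin r → Fin m}
    (hu : Function.Injective u) : LinearIndependent k fun s => l (u s) := by
  have h1 : LinearIndependent k fun i : (Finset.univ.image u : Finset (Fin m)) => l i := by
    by_contra hn
    obtain ⟨C, hC, hmin⟩ := exists_minimal_le_of_wellFoundedLT
      (fun D : Finset (Fin m) => ¬ LinearIndependent k (fun i : D => l i)) _ hn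
    have h2 := hg C hmin
    have h3 := (Finset.card_le_card hC).trans Finset.card_image_le
    simp only [Finset.card_univ, Fintype.card_fin] at h3
    omega
  exact h1.comp (fun s => ⟨u s, Finset.mem_image_of_mem _ (Finset.mem_univ s)⟩)
    fun s t h => hu (congrArg Subtype.val h)

theorem main {m : ℕ} (l : Fin m → MvPolynomial (Fin 4) k) (hl : ∀ i, (l i).IsHomogeneous 1)
    (hg : ∀ C, IsCircuit k l C → 4 ≤ C.card) : IsSyzygetic (jacobianIdeal (∏ i, l i)) := by
  have h1 : ∀ i, ∃ v, lin v = l i := fun i => by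
    have : l i ∈ homogeneousSubmodule (Fin 4) k 1 := hl i
    rw [homogeneousSubmodule_one_eq_span_X] at this
    obtain ⟨c, hc⟩ := (Submodule.mem_span_range_iff_exists_fun k).1 this
    exact ⟨c, by rw [← hc, lin, Fintype.linearCombination_apply]⟩
  choose lam hlam using h1
  obtain rfl : l = fun i => lin (lam i) := funext fun i => (hlam i).symm
  have h2 : ∀ {r : ℕ}, r ≤ 3 → ∀ {u : Fin r → Fin m}, Function.Injective u →
      LinearIndependent k fun s => lam (u s) := fun hr u hu =>
    LinearIndependent.of_comp lin (indep_of_circuits hg hr hu)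
  have H : Indep3 lam := by
    refine ⟨fun i => ?_, fun i j h => ?_, fun i j n h h' h'' => ?_⟩
    · have := h2 (by norm_num) (u := ![i]) (Function.injective_of_subsingleton _)
      rwa [show (fun s => lam (![i] s)) = ![lam i] from funext fun s => by fin_cases s; rfl]
        at this
    · have := h2 (by norm_num) (u := ![i, j]) fun s t => by
        fin_cases s <;> fin_cases t <;> simp [h, h.symm]
      rwa [show (fun s => lam (![i, j] s)) = ![lam i, lam j] from
        funext fun s => by fin_cases s <;> rfl] at this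
    · have := h2 (by norm_num) (u := ![i, j, n]) fun s t => by
        fin_cases s <;> fin_cases t <;> simp [h, h.symm, h', h'.symm, h'', h''.symm]
      rwa [show (fun s => lam (![i, j, n] s)) = ![lam i, lam j, lam n] from
        funext fun s => by fin_cases s <;> rfl] at this
  refine syzygetic_of_kos ?_ _ fun θ hθ hJ => H.kos_mem hθ hJ
  have : IsUnit (2 : k) := Ne.isUnit two_ne_zero
  simpa [map_ofNat] using this.map (C : k →+* MvPolynomial (Fin 4) k)

end Pool.Agent.MP_1ca51f_al
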